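import Pool.Agent.N566.VV.Defs

/-!
# Project VV: state models and the Reidemeister moves

Written by helper432 for project VV of helper566.
-/

set_option autoImplicit false
set_option linter.unusedSectionVars false

namespace Pool.Agent.N432.VV

open Pool.Agent.H835R2.Knot
open Pool.Agent.N566.VV
open Finset

section
variable {ι : Type} [Fintype ι] [DecidableEq ι]

theorem updS_self (i : ℕ) (σ : ℕ → ι) : updS i (σ i) (σ (i + 1)) σ = σ := by
  funext p
  unfold updS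
  split_ifs with h1 h2
  · rw [h1]
  · rw [h2]
  · rfl

theorem updS_updS (i : ℕ) (x y x' y' : ι) (σ : ℕ → ι) :
    updS i x y (updS i x' y' σ) = updS i x y σ := by
  funext p
  unfold updS
  split_ifs <;> rfl

theorem updS_insS (i : ℕ) (x y x' y' : ι) (σ : ℕ → ι) :
    updS i x y (insS i x' y' σ) = insS i x y σ := by
  funext p
  unfold updS insS
  split_ifs <;> first | rfl | omega

theorem delS_updS (i : ℕ) (x y : ι) (σ : ℕ → ι) : delS i (updS i x y σ) = delS i σ := by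
  funext p
  unfold delS updS
  split_ifs <;> first | rfl | omega

theorem updS_0 (i : ℕ) (x y : ι) (σ : ℕ → ι) : updS i x y σ i = x := by
  unfold updS
  rw [if_pos rfl]

theorem updS_1 (i : ℕ) (x y : ι) (σ : ℕ → ι) : updS i x y σ (i + 1) = y := by
  unfold updS
  rw [if_neg (by omega), if_pos rfl]

theorem updS_2 (i : ℕ) (x y : ι) (σ : ℕ → ι) : updS i x y σ (i + 2) = σ (i + 2) := by
  unfold updS
  rw [if_neg (by omega), if_neg (by omega)]

theorem updS_m (i : ℕ) (x y : ι) (σ : ℕ → ι) : updS (i + 1) x y σ i = σ i := by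
  unfold updS
  rw [if_neg (by omega), if_neg (by omega)]

theorem insS_0 (i : ℕ) (x y : ι) (σ : ℕ → ι) : insS i x y σ i = x := by
  unfold insS
  rw [if_neg (by omega), if_pos rfl]

theorem insS_1 (i : ℕ) (x y : ι) (σ : ℕ → ι) : insS i x y σ (i + 1) = y := by
  unfold insS
  rw [if_neg (by omega), if_neg (by omega), if_pos rfl]

theorem Xl_smul (A : Matrix (ι × ι) (ι × ι) ℂ) (i : ℕ) (c : ℂ) (f : F ι) :
    Xl A i (c • f) = c • Xl A i f := by
  funext σ
  rw [Pi.smul_apply]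
  unfold Xl
  rw [smul_eq_mul, Finset.mul_sum]
  refine Finset.sum_congr rfl fun p _ => ?_
  rw [Pi.smul_apply, smul_eq_mul]
  ring

/-- curls at maxima -/
theorem curlB (T : Dat ι) (A : Matrix (ι × ι) (ι × ι) ℂ) (κ κ' : ℂ) (hκ : κ' * κ = 1)
    (h : ∀ y z, ∑ x, T.c x * A (x, T.rev x) (y, z) = if z = T.rev y then κ * T.c y else 0)
    (i : ℕ) (f : F ι) : Bl T i (κ' • Xl A i f) = Bl T i f := by
  funext σ
  unfold Bl
  have h1 : ∀ x, T.c x * (κ' • Xl A i f) (insS i x (T.rev x) σ) =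
      ∑ y, ∑ z, κ' * (T.c x * A (x, T.rev x) (y, z)) * f (insS i y z σ) := by
    intro x
    rw [Pi.smul_apply, smul_eq_mul]
    unfold Xl
    rw [Fintype.sum_prod_type, insS_0, insS_1]
    simp only [updS_insS, Finset.mul_sum]
    refine Finset.sum_congr rfl fun y _ => Finset.sum_congr rfl fun z _ => ?_
    ring
  simp only [h1]
  rw [Finset.sum_comm]
  refine Finset.sum_congr rfl fun y _ => ?_
  rw [Finset.sum_comm]
  have h2 : ∀ z, ∑ x, κ' * (T.c x * A (x, T.rev x) (y, z)) * f (insS i y z σ) =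
      if z = T.rev y then T.c y * f (insS i y (T.rev y) σ) else 0 := by
    intro z
    rw [← Finset.sum_mul, ← Finset.mul_sum, h y z]
    split_ifs with hz
    · rw [hz, ← mul_assoc, hκ, one_mul]
    · rw [mul_zero, zero_mul]
  simp only [h2]
  rw [Finset.sum_ite_eq', if_pos (Finset.mem_univ _)]

/-- curls at minima -/
theorem curlD (T : Dat ι) (A : Matrix (ι × ι) (ι × ι) ℂ) (κ κ' : ℂ) (hκ : κ' * κ = 1)
    (h : ∀ y z, ∑ x, A (y, z) (x, T.rev x) * T.d x = if z = T.rev y then κ * T.d y else 0)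
    (i : ℕ) (f : F ι) : κ' • Xl A i (Dl T i f) = Dl T i f := by
  funext σ
  rw [Pi.smul_apply, smul_eq_mul]
  unfold Xl Dl
  rw [Fintype.sum_prod_type]
  have h1 : ∀ x, ∑ y, A (σ i, σ (i + 1)) (x, y) * (if updS i x y σ (i + 1) = T.rev (updS i x y σ i) then
      T.d (updS i x y σ i) * f (delS i (updS i x y σ)) else 0) =
      A (σ i, σ (i + 1)) (x, T.rev x) * T.d x * f (delS i σ) := by
    intro x
    simp only [updS_0, updS_1, delS_updS, mul_ite, mul_zero]
    rw [Finset.sum_ite_eq', if_pos (Finset.mem_univ _), mul_assoc]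
  simp only [h1]
  rw [← Finset.sum_mul, h]
  split_ifs with hz
  · rw [← mul_assoc, ← mul_assoc, hκ, one_mul]
  · rw [zero_mul, mul_zero]

/-- second move -/
theorem Xl_inv (A B : Matrix (ι × ι) (ι × ι) ℂ) (h : A * B = 1) (i : ℕ) (f : F ι) :
    Xl A i (Xl B i f) = f := by
  funext σ
  unfold Xl
  have h1 : ∀ p : ι × ι, A (σ i, σ (i + 1)) p * ∑ q : ι × ι, B (updS i p.1 p.2 σ i,
      updS i p.1 p.2 σ (i + 1)) q * f (updS i q.1 q.2 (updS i p.1 p.2 σ)) =
      ∑ q : ι × ι, A (σ i, σ (i + 1)) p * B p q * f (updS i q.1 q.2 σ) := by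
    intro p
    rw [updS_0, updS_1, Finset.mul_sum]
    refine Finset.sum_congr rfl fun q _ => ?_
    rw [updS_updS, Prod.mk.eta]
    ring
  simp only [h1]
  rw [Finset.sum_comm]
  have h2 : ∀ q : ι × ι, ∑ p : ι × ι, A (σ i, σ (i + 1)) p * B p q * f (updS i q.1 q.2 σ) =
      if (σ i, σ (i + 1)) = q then f (updS i q.1 q.2 σ) else 0 := by
    intro q
    rw [← Finset.sum_mul, ← Matrix.mul_apply, h, Matrix.one_apply]
    split_ifs
    · rw [one_mul]
    · rw [zero_mul]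
  simp only [h2]
  rw [Finset.sum_ite_eq, if_pos (Finset.mem_univ _)]
  simp only
  rw [updS_self]

/-- the labels at three places -/
def up3 (i : ℕ) (x y z : ι) (σ : ℕ → ι) : ℕ → ι :=
  fun p => if p = i then x else if p = i + 1 then y else if p = i + 2 then z else σ p

theorem up3_a (i : ℕ) (p1 p2 q1 q2 r1 r2 : ι) (σ : ℕ → ι) :
    updS i r1 r2 (updS (i + 1) q1 q2 (updS i p1 p2 σ)) = up3 i r1 r2 q2 σ := by
  funext p
  unfold updS up3
  split_ifs <;> rfl

theorem up3_b (i : ℕ) (p1 p2 q1 q2 r1 r2 : ι) (σ : ℕ → ι) :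
    updS (i + 1) r1 r2 (updS i q1 q2 (updS (i + 1) p1 p2 σ)) = up3 i q1 r1 r2 σ := by
  funext p
  unfold updS up3
  split_ifs <;> first | rfl | omega

theorem reorder1 (G : ι → ι → ι → ι → ι → ι → ℂ) :
    ∑ a, ∑ m, ∑ b, ∑ z, ∑ x, ∑ y, G a m b z x y = ∑ x, ∑ y, ∑ z, ∑ a, ∑ b, ∑ m, G a m b z x y := by
  have h1 : ∑ a, ∑ m, ∑ b, ∑ z, ∑ x, ∑ y, G a m b z x y = ∑ p : ι × ι × ι × ι × ι × ι,
      G p.1 p.2.1 p.2.2.1 p.2.2.2.1 p.2.2.2.2.1 p.2.2.2.2.2 := by
    simp only [Fintype.sum_prod_type]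
  have h2 : ∑ x, ∑ y, ∑ z, ∑ a, ∑ b, ∑ m, G a m b z x y = ∑ p : ι × ι × ι × ι × ι × ι,
      G p.2.2.2.1 p.2.2.2.2.2 p.2.2.2.2.1 p.2.2.1 p.1 p.2.1 := by
    simp only [Fintype.sum_prod_type]
  rw [h1, h2]
  exact Fintype.sum_equiv ⟨fun p => (p.2.2.2.2.1, p.2.2.2.2.2, p.2.2.2.1, p.1, p.2.2.1, p.2.1),
    fun p => (p.2.2.2.1, p.2.2.2.2.2, p.2.2.2.2.1, p.2.2.1, p.1, p.2.1), fun _ => rfl,
    fun _ => rfl⟩ _ _ fun _ => rfl

theorem reorder2 (G : ι → ι → ι → ι → ι → ι → ℂ) :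
    ∑ a, ∑ b, ∑ x, ∑ m, ∑ y, ∑ z, G a b x m y z = ∑ x, ∑ y, ∑ z, ∑ a, ∑ b, ∑ m, G a b x m y z := by
  have h1 : ∑ a, ∑ b, ∑ x, ∑ m, ∑ y, ∑ z, G a b x m y z = ∑ p : ι × ι × ι × ι × ι × ι,
      G p.1 p.2.1 p.2.2.1 p.2.2.2.1 p.2.2.2.2.1 p.2.2.2.2.2 := by
    simp only [Fintype.sum_prod_type]
  have h2 : ∑ x, ∑ y, ∑ z, ∑ a, ∑ b, ∑ m, G a b x m y z = ∑ p : ι × ι × ι × ι × ι × ι,
      G p.2.2.2.1 p.2.2.2.2.1 p.1 p.2.2.2.2.2 p.2.1 p.2.2.1 := by
    simp only [Fintype.sum_prod_type]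
  rw [h1, h2]
  exact Fintype.sum_equiv ⟨fun p => (p.2.2.1, p.2.2.2.2.1, p.2.2.2.2.2, p.1, p.2.1, p.2.2.2.1),
    fun p => (p.2.2.2.1, p.2.2.2.2.1, p.1, p.2.2.2.2.2, p.2.1, p.2.2.1), fun _ => rfl,
    fun _ => rfl⟩ _ _ fun _ => rfl

/-- third move, left side -/
theorem left3 (A : Matrix (ι × ι) (ι × ι) ℂ) (i : ℕ) (f : F ι) (σ : ℕ → ι) :
    Xl A i (Xl A (i + 1) (Xl A i f)) σ = ∑ x, ∑ y, ∑ z,
      (∑ a, ∑ b, ∑ m, A (σ i, σ (i + 1)) (a, m) * A (m, σ (i + 2)) (b, z) * A (a, b) (x, y)) *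
        f (up3 i x y z σ) := by
  unfold Xl
  simp only [Fintype.sum_prod_type, updS_0, updS_1, updS_2, updS_m, up3_a, Finset.mul_sum,
    Finset.sum_mul]
  rw [reorder1]
  refine Finset.sum_congr rfl fun x _ => Finset.sum_congr rfl fun y _ => Finset.sum_congr rfl
    fun z _ => Finset.sum_congr rfl fun a _ => Finset.sum_congr rfl fun b _ =>
    Finset.sum_congr rfl fun m _ => ?_
  ring

/-- third move, right side -/
theorem right3 (A : Matrix (ι × ι) (ι × ι) ℂ) (i : ℕ) (f : F ι) (σ : ℕ → ι) :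
    Xl A (i + 1) (Xl A i (Xl A (i + 1) f)) σ = ∑ x, ∑ y, ∑ z,
      (∑ a, ∑ b, ∑ m, A (σ (i + 1), σ (i + 2)) (a, b) * A (σ i, a) (x, m) * A (m, b) (y, z)) *
        f (up3 i x y z σ) := by
  unfold Xl
  simp only [Fintype.sum_prod_type, updS_0, updS_1, updS_2, updS_m, up3_b, Finset.mul_sum,
    Finset.sum_mul]
  rw [reorder2]
  refine Finset.sum_congr rfl fun x _ => Finset.sum_congr rfl fun y _ => Finset.sum_congr rfl
    fun z _ => Finset.sum_congr rfl fun a _ => Finset.sum_congr rfl fun b _ =>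
    Finset.sum_congr rfl fun m _ => ?_
  ring

/-- third move -/
theorem third (T : Dat ι) (h : T.Ok) (i : ℕ) (f : F ι) :
    Xl T.P i (Xl T.P (i + 1) (Xl T.P i f)) = Xl T.P (i + 1) (Xl T.P i (Xl T.P (i + 1) f)) := by
  funext σ
  rw [left3, right3]
  refine Finset.sum_congr rfl fun x _ => Finset.sum_congr rfl fun y _ => Finset.sum_congr rfl
    fun z _ => ?_
  rw [h.yb]

end

theorem s_rm : S_RM := by
  intro ι _ _ T h i b A f
  have hkk := h.kk
  have hkk' : T.k' * T.k = 1 := by rw [mul_comm, hkk]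
  refine ⟨?_, ?_, fun hA => ⟨?_, ?_⟩, ?_, ?_, ?_⟩
  · have hd : ((Piece.birth i b).act A).dir i ≠ ((Piece.birth i b).act A).dir (i + 1) := by
      have hd0 : ((Piece.birth i b).act A).dir i = b := by simp [Piece.act]
      have hd1 : ((Piece.birth i b).act A).dir (i + 1) = !b := by simp [Piece.act]
      rw [hd0, hd1]
      cases b <;> decide
    change Bl T i ((if ((Piece.birth i b).act A).dir i = ((Piece.birth i b).act A).dir (i + 1) then T.k
      else T.k') • Xl T.P i f) = Bl T i f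
    rw [if_neg hd]
    exact curlB T T.P T.k T.k' hkk' h.fb1 i f
  · have hd : ((Piece.birth i b).act A).dir i ≠ ((Piece.birth i b).act A).dir (i + 1) := by
      have hd0 : ((Piece.birth i b).act A).dir i = b := by simp [Piece.act]
      have hd1 : ((Piece.birth i b).act A).dir (i + 1) = !b := by simp [Piece.act]
      rw [hd0, hd1]
      cases b <;> decide
    change Bl T i ((if ((Piece.birth i b).act A).dir i = ((Piece.birth i b).act A).dir (i + 1) then T.k'
      else T.k) • Xl T.Q i f) = Bl T i f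
    rw [if_neg hd]
    exact curlB T T.Q T.k' T.k hkk h.fb2 i f
  · have hd : A.dir i ≠ A.dir (i + 1) := by
      rw [hA]
      cases A.dir i <;> decide
    change (if A.dir i = A.dir (i + 1) then T.k else T.k') • Xl T.P i (Dl T i f) = Dl T i f
    rw [if_neg hd]
    exact curlD T T.P T.k T.k' hkk' h.fd1 i f
  · have hd : A.dir i ≠ A.dir (i + 1) := by
      rw [hA]
      cases A.dir i <;> decide
    change (if A.dir i = A.dir (i + 1) then T.k' else T.k) • Xl T.Q i (Dl T i f) = Dl T i f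
    rw [if_neg hd]
    exact curlD T T.Q T.k' T.k hkk h.fd2 i f
  · change (if A.dir i = A.dir (i + 1) then T.k else T.k') • Xl T.P i
      ((if A.dir (sw i i) = A.dir (sw i (i + 1)) then T.k' else T.k) • Xl T.Q i f) = f
    have h0 : sw i i = i + 1 := by unfold sw; rw [if_pos rfl]
    have h1 : sw i (i + 1) = i := by unfold sw; rw [if_neg (by omega), if_pos rfl]
    rw [h0, h1, Xl_smul, Xl_inv T.P T.Q h.pq, smul_smul]
    by_cases hd : A.dir i = A.dir (i + 1)
    · rw [if_pos hd, if_pos hd.symm, hkk, one_smul]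
    · rw [if_neg hd, if_neg (fun h => hd h.symm), hkk', one_smul]
  · change (if A.dir i = A.dir (i + 1) then T.k' else T.k) • Xl T.Q i
      ((if A.dir (sw i i) = A.dir (sw i (i + 1)) then T.k else T.k') • Xl T.P i f) = f
    have h0 : sw i i = i + 1 := by unfold sw; rw [if_pos rfl]
    have h1 : sw i (i + 1) = i := by unfold sw; rw [if_neg (by omega), if_pos rfl]
    rw [h0, h1, Xl_smul, Xl_inv T.Q T.P h.qp, smul_smul]
    by_cases hd : A.dir i = A.dir (i + 1)
    · rw [if_pos hd, if_pos hd.symm, hkk', one_smul]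
    · rw [if_neg hd, if_neg (fun h => hd h.symm), hkk, one_smul]
  · change (if A.dir i = A.dir (i + 1) then T.k else T.k') • Xl T.P i
      ((if A.dir (sw i (i + 1)) = A.dir (sw i (i + 1 + 1)) then T.k else T.k') • Xl T.P (i + 1)
      ((if A.dir (sw i (sw (i + 1) i)) = A.dir (sw i (sw (i + 1) (i + 1))) then T.k else T.k') •
        Xl T.P i f)) =
      (if A.dir (i + 1) = A.dir (i + 1 + 1) then T.k else T.k') • Xl T.P (i + 1)
      ((if A.dir (sw (i + 1) i) = A.dir (sw (i + 1) (i + 1)) then T.k else T.k') • Xl T.P i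
      ((if A.dir (sw (i + 1) (sw i (i + 1))) = A.dir (sw (i + 1) (sw i (i + 1 + 1))) then T.k
        else T.k') • Xl T.P (i + 1) f))
    have e1 : sw i (i + 1) = i := by unfold sw; rw [if_neg (by omega), if_pos rfl]
    have e2 : sw i (i + 1 + 1) = i + 1 + 1 := by unfold sw; rw [if_neg (by omega), if_neg (by omega)]
    have e3 : sw (i + 1) i = i := by unfold sw; rw [if_neg (by omega), if_neg (by omega)]
    have e4 : sw (i + 1) (i + 1) = i + 1 + 1 := by unfold sw; rw [if_pos rfl]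
    have e5 : sw i i = i + 1 := by unfold sw; rw [if_pos rfl]
    have e6 : sw (i + 1) (i + 1 + 1) = i + 1 := by unfold sw; rw [if_neg (by omega), if_pos rfl]
    simp only [e1, e2, e3, e4, e5, e6, Xl_smul, smul_smul, third T h]
    congr 1
    ring

end Pool.Agent.N432.VV
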